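import Mathlib
import Pool.Agent.TH286.GT.All

/-!
# A corollary of the subspace theorem

Linear forms with real algebraic coefficients at the real place, divisibility conditions on the
coordinates at the finite places; the points are indexed by an infinite set of natural numbers `m`
and all sizes are exponential in `m`.
-/

set_option autoImplicit false

open Finset Filter Topology

namespace Pool.Agent.V11270.Sub

open NumberField
open Pool.Agent.TH286.GT

/-- finitely many real algebraic numbers lie in a number field and have a common denominator -/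
lemma exists_field {ι : Type} [Finite ι] (a : ι → ℝ) (ha : ∀ i, IsAlgebraic ℚ (a i)) :
    ∃ (K : IntermediateField ℚ ℝ) (_ : FiniteDimensional ℚ K) (d : ℤ) (u : ι → 𝓞 K),
      d ≠ 0 ∧ ∀ i, ((u i : K) : ℝ) = d * a i := by
  classical
  cases nonempty_fintype ι
  let K : IntermediateField ℚ ℝ := IntermediateField.adjoin ℚ (Set.range a)
  have hfin : FiniteDimensional ℚ K := by
    apply IntermediateField.finiteDimensional_adjoin
    rintro x ⟨i, rfl⟩
    exact (ha i).isIntegral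
  have hmem : ∀ i, a i ∈ K := fun i => IntermediateField.subset_adjoin ℚ _ ⟨i, rfl⟩
  have hz : ∀ i, ∃ d : ℤ, d ≠ 0 ∧ IsIntegral ℤ ((d : K) * (⟨a i, hmem i⟩ : K)) := by
    intro i
    have h1 : IsAlgebraic ℤ (⟨a i, hmem i⟩ : K) := by
      have h2 : IsAlgebraic ℚ (⟨a i, hmem i⟩ : K) := Algebra.IsAlgebraic.isAlgebraic _
      exact (IsFractionRing.isAlgebraic_iff ℤ ℚ K).2 h2
    obtain ⟨y, hy, hint⟩ := h1.exists_integral_multiple
    refine ⟨y, hy, ?_⟩
    rw [zsmul_eq_mul] at hint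
    exact hint
  choose d hd hint using hz
  refine ⟨K, hfin, ∏ i, d i, fun i => ⟨((∏ i, d i : ℤ) : K) * ⟨a i, hmem i⟩, ?_⟩, ?_, ?_⟩
  · rw [← Finset.mul_prod_erase _ _ (Finset.mem_univ i)]
    have h3 : (((d i * ∏ j ∈ Finset.univ.erase i, d j : ℤ)) : K) * (⟨a i, hmem i⟩ : K) =
        ((∏ j ∈ Finset.univ.erase i, d j : ℤ) : K) * ((d i : K) * ⟨a i, hmem i⟩) := by
      push_cast
      ring
    rw [h3]
    exact IsIntegral.mul (map_isIntegral_int (Int.castRingHom K) (Algebra.IsIntegral.isIntegral _))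
      (hint i)
  · exact Finset.prod_ne_zero_iff.2 fun i _ => hd i
  · intro i
    show (((((∏ i, d i : ℤ) : K) * ⟨a i, hmem i⟩ : K)) : ℝ) = _
    push_cast
    rfl

/-- **The subspace theorem** for points with divisibility conditions, indexed by an infinite set
of natural numbers. -/
theorem sub_inf {n : ℕ} (hn : 1 ≤ n) (L : Matrix (Fin n) (Fin n) ℝ)
    (hL : ∀ i j, IsAlgebraic ℚ (L i j)) (hdet : L.det ≠ 0) {ι : Type} [Fintype ι]
    (lam : ι → Fin n → ℤ) (hlam : ∀ v l, lam v l ≠ 0) (kk : ℕ → ι → ℕ) (c γ : ℝ) (hγ : 0 < γ)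
    (A : ℕ → Fin n → ℝ) (x : ℕ → Fin n → ℤ) (S : Set ℕ) (hS : S.Infinite)
    (hx : ∀ m ∈ S, x m ≠ 0) (hdvd : ∀ m ∈ S, ∀ l, (∏ v, lam v l ^ kk m v) ∣ x m l)
    (hsol : ∀ m ∈ S, ∀ l, |∑ j, L l j * (x m j : ℝ)| ≤ A m l)
    (hA : ∀ m ∈ S, ∀ l, 0 < A m l) (hAc : ∀ m ∈ S, ∀ l, |Real.log (A m l)| ≤ c * m)
    (hDc : ∀ m ∈ S, Real.log |∏ l, ∏ v, ((lam v l : ℤ) : ℝ) ^ kk m v| ≤ c * m)
    (hsum : ∀ m ∈ S, ∑ l, Real.log (A m l) + γ * m ≤
      Real.log |∏ l, ∏ v, ((lam v l : ℤ) : ℝ) ^ kk m v|) :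
    ∃ y : Fin n → ℤ, y ≠ 0 ∧ {m ∈ S | ∑ l, y l * x m l = 0}.Infinite := by
  classical
  obtain ⟨K, hfin, d, u, hd, hu⟩ := exists_field (fun ij : Fin n × Fin n => L ij.1 ij.2)
    (fun ij => hL ij.1 ij.2)
  have : NumberField K := ⟨⟩
  set φ : 𝓞 K →+* ℂ := (Complex.ofRealHom.comp (algebraMap K ℝ)).comp (algebraMap (𝓞 K) K) with hφ
  have hφv : ∀ a : 𝓞 K, φ a = (((a : K) : ℝ) : ℂ) := fun a => rfl
  set M0 : Matrix (Fin n) (Fin n) (𝓞 K) := Matrix.of fun i j => u (i, j) with hM0
  have hM0v : ∀ i j, φ (M0 i j) = ((d * L i j : ℝ) : ℂ) := by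
    intro i j
    rw [hφv, hM0, Matrix.of_apply, hu]
  have hdR : (d : ℝ) ≠ 0 := by exact_mod_cast hd
  set lD : ℝ := Real.log |(d : ℝ)| with hlD
  have hM0det : M0.det ≠ 0 := by
    intro h0
    have h1 : φ M0.det = 0 := by rw [h0, map_zero]
    rw [RingHom.map_det, RingHom.mapMatrix_apply] at h1
    have h2 : M0.map φ = ((d : ℝ) • L).map Complex.ofRealHom := by
      ext i j
      rw [Matrix.map_apply, Matrix.map_apply, Matrix.smul_apply, hM0v]
      simp
    rw [h2, ← RingHom.mapMatrix_apply, ← RingHom.map_det, Matrix.det_smul] at h1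
    simp only [Complex.ofRealHom_eq_coe, Complex.ofReal_eq_zero] at h1
    rcases mul_eq_zero.1 h1 with h | h
    · exact hdR (pow_eq_zero_iff (by simp; omega) |>.1 h)
    · exact hdet h
  -- reindex the index set
  let e : ι ≃ Fin (Fintype.card ι) := Fintype.equivFin ι
  -- large indices
  obtain ⟨m0, hm0⟩ : ∃ m0 : ℕ, ∀ m : ℕ, m0 ≤ m → (n : ℝ) * |lD| ≤ γ / 2 * m ∧
      |lD| ≤ m ∧ 0 < m := by
    obtain ⟨m1, hm1⟩ := exists_nat_ge ((n : ℝ) * |lD| / (γ / 2))
    obtain ⟨m2, hm2⟩ := exists_nat_ge (|lD|)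
    refine ⟨max (max m1 m2) 1, fun m hm => ⟨?_, ?_, ?_⟩⟩
    · have h1 : (m1 : ℝ) ≤ m := by
        exact_mod_cast (le_trans (le_max_left _ _) (le_max_left _ _)).trans hm
      rw [div_le_iff₀ (by positivity)] at hm1
      nlinarith
    · have h1 : (m2 : ℝ) ≤ m := by
        exact_mod_cast (le_trans (le_max_right _ _) (le_max_left _ _)).trans hm
      linarith
    · exact lt_of_lt_of_le one_pos ((le_max_right _ _).trans hm)
  set S' : Set ℕ := {m ∈ S | m0 ≤ m} with hS'
  have hS'i : S'.Infinite := by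
    have h1 : S' = S \ {m | m < m0} := by
      ext m
      simp [hS', not_lt]
    rw [h1]
    exact hS.sdiff (Set.finite_lt_nat m0)
  set nn : ℕ → ℕ := Nat.nth (· ∈ S') with hnn
  have hnnS : ∀ t, nn t ∈ S' := fun t => Nat.nth_mem_of_infinite hS'i t
  have hnnm : StrictMono nn := Nat.nth_strictMono hS'i
  have hnnT : Tendsto nn atTop atTop := hnnm.tendsto_atTop
  -- the lattices
  set Dg : ℕ → Fin n → ℤ := fun m l => ∏ v, lam v l ^ kk m v with hDg
  have hDg0 : ∀ m l, Dg m l ≠ 0 := fun m l =>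
    Finset.prod_ne_zero_iff.2 fun v _ => pow_ne_zero _ (hlam v l)
  have hdetB : ∀ m, (Matrix.diagonal (Dg m)).det = ∏ l, Dg m l := fun m => Matrix.det_diagonal
  have hdetR : ∀ m, (((Matrix.diagonal (Dg m)).det : ℤ) : ℝ) =
      ∏ l, ∏ v, ((lam v l : ℤ) : ℝ) ^ kk m v := by
    intro m
    rw [hdetB, hDg]
    push_cast
    rfl
  have key := Pool.Agent.TH286.GT.subspaceO (𝓞 K) φ n (Fintype.card ι) hn M0 1
    (fun v l => ((lam (e.symm v) l : ℤ) : 𝓞 K))
    ⟨hM0det, fun i j => by rw [hM0v, Complex.ofReal_im], by simp, fun v l => by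
      show ((lam (e.symm v) l : ℤ) : 𝓞 K) ≠ 0
      exact Int.cast_ne_zero.2 (hlam (e.symm v) l)⟩ (|c| + 1) (γ / 2) (by linarith [abs_nonneg c])
    (by positivity) (fun t => (nn t : ℝ))
    (tendsto_natCast_atTop_atTop.comp hnnT)
    (fun t v => kk (nn t) (e.symm v)) (fun t => Matrix.diagonal (Dg (nn t)))
    (by
      intro t
      refine ⟨?_, ?_⟩
      · rw [hdetB]
        exact Finset.prod_ne_zero_iff.2 fun l _ => hDg0 _ _
      · rw [Matrix.one_mul, Matrix.mul_one]
        refine Matrix.ext fun i j => ?_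
        rw [Matrix.map_apply, Matrix.diagonal_apply, Matrix.diagonal_apply]
        split_ifs with hij
        · show ((∏ v, lam v i ^ kk (nn t) v : ℤ) : 𝓞 K) =
            ∏ v, (((lam (e.symm v) i : ℤ) : 𝓞 K)) ^ kk (nn t) (e.symm v)
          rw [Int.cast_prod]
          refine Fintype.prod_equiv e _ _ (fun v => ?_)
          rw [Int.cast_pow, Equiv.symm_apply_apply]
        · simp)
    (fun t l => |(d : ℝ)| * A (nn t) l)
    (by
      intro t
      have hmS : nn t ∈ S := (hnnS t).1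
      obtain ⟨h1, h2, h3⟩ := hm0 _ (hnnS t).2
      have hdpos : 0 < |(d : ℝ)| := abs_pos.2 hdR
      have hmpos : (0 : ℝ) < nn t := by exact_mod_cast h3
      have hlog : ∀ l, Real.log (|(d : ℝ)| * A (nn t) l) =
          lD + Real.log (A (nn t) l) := fun l =>
        Real.log_mul hdpos.ne' (hA _ hmS l).ne'
      refine ⟨?_, ?_, ?_, ?_⟩
      · rw [hdetR]
        refine (hDc _ hmS).trans ?_
        have := le_abs_self c
        nlinarith
      · intro l
        exact mul_pos hdpos (hA _ hmS l)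
      · intro l
        rw [hlog]
        calc |lD + Real.log (A (nn t) l)| ≤
            |lD| + |Real.log (A (nn t) l)| := abs_add_le _ _
          _ ≤ nn t + c * nn t := add_le_add h2 (hAc _ hmS l)
          _ ≤ (|c| + 1) * nn t := by
            have := le_abs_self c
            nlinarith
      · show ∑ l, Real.log (|(d : ℝ)| * A (nn t) l) + γ / 2 * (nn t : ℝ) ≤ _
        rw [hdetR]
        simp only [hlog]
        rw [Finset.sum_add_distrib, Finset.sum_const, Finset.card_univ, Fintype.card_fin,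
          nsmul_eq_mul]
        have h4 := hsum _ hmS
        have h5 : (n : ℝ) * lD ≤ n * |lD| :=
          mul_le_mul_of_nonneg_left (le_abs_self _) (Nat.cast_nonneg _)
        linarith)
    (fun t => x (nn t)) (fun t => hx _ (hnnS t).1)
    (by
      intro t
      have hmS : nn t ∈ S := (hnnS t).1
      refine ⟨fun l => ?_, ?_⟩
      · have h1 : φ (∑ j, M0 l j * ((x (nn t) j : ℤ) : 𝓞 K)) =
            ((d * ∑ j, L l j * (x (nn t) j : ℝ) : ℝ) : ℂ) := by
          rw [map_sum]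
          simp only [map_mul, hM0v, map_intCast]
          push_cast
          rw [Finset.mul_sum]
          exact Finset.sum_congr rfl fun j _ => by ring
        rw [h1, Complex.norm_real, Real.norm_eq_abs, abs_mul]
        exact mul_le_mul_of_nonneg_left (hsol _ hmS l) (abs_nonneg _)
      · choose z hz using fun l => hdvd _ hmS l
        refine ⟨z, ?_⟩
        funext l
        rw [Matrix.mulVec_diagonal]
        exact hz l)
  obtain ⟨y, hy0, hy⟩ := key
  refine ⟨y, hy0, ?_⟩
  have h1 : {t | ∑ l, y l * x (nn t) l = 0}.Infinite := Nat.frequently_atTop_iff_infinite.1 hy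
  refine ((h1.image (hnnm.injective.injOn)).mono ?_)
  rintro _ ⟨t, ht, rfl⟩
  exact ⟨(hnnS t).1, ht⟩

end Pool.Agent.V11270.Sub
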