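import Mathlib
import Pool.Agent.V11270.Sub.Cor

/-!
# Ridout's theorem for denominators `b ^ m`, and small tools
-/

set_option autoImplicit false

open Finset Filter Topology

namespace Pool.Agent.V11270.Sub

lemma zero_of_inf {b : ℝ} (hb : 1 < b) (P C : ℝ) (h : {m : ℕ | |P| * b ^ m ≤ C}.Infinite) :
    P = 0 := by
  by_contra hP
  have hP' : 0 < |P| := abs_pos.2 hP
  obtain ⟨M, hM⟩ := ((tendsto_pow_atTop_atTop_of_one_lt hb).const_mul_atTop hP').eventually_gt_atTop
    C |>.exists_forall_of_atTop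
  obtain ⟨m, hm, hm'⟩ := h.exists_gt M
  have := hM m hm'.le
  exact absurd hm (not_le.2 this)

lemma inf_large {S : Set ℕ} (hS : S.Infinite) (M : ℕ) : {m ∈ S | M ≤ m}.Infinite := by
  have h1 : {m ∈ S | M ≤ m} = S \ {m | m < M} := by
    ext m
    simp [not_lt]
  rw [h1]
  exact hS.sdiff (Set.finite_lt_nat M)

/-- Ridout's theorem with denominators `b ^ m`. -/
theorem ridout {b : ℕ} (hb : 2 ≤ b) {A : ℝ} (hA : IsAlgebraic ℚ A) (hirr : Irrational A) {δ : ℝ}
    (hδ : 0 < δ) : ∃ M : ℕ, ∀ m : ℕ, M ≤ m → ∀ z : ℤ,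
      (b : ℝ) ^ (-(δ * m)) < |A * (b : ℝ) ^ m - z| := by
  by_contra hcon
  push Not at hcon
  have hb1 : (1 : ℝ) < b := by exact_mod_cast hb
  have hb0 : (0 : ℝ) < b := by linarith
  have hlb : 0 < Real.log b := Real.log_pos hb1
  set S : Set ℕ := {m : ℕ | ∃ z : ℤ, |A * (b : ℝ) ^ m - z| ≤ (b : ℝ) ^ (-(δ * m))} with hSdef
  have hS : S.Infinite := by
    rw [Set.infinite_iff_exists_gt]
    intro M
    obtain ⟨m, hm, z, hz⟩ := hcon (M + 1)
    exact ⟨m, ⟨z, hz⟩, by omega⟩
  have hzex : ∀ m, ∃ z : ℤ, m ∈ S → |A * (b : ℝ) ^ m - z| ≤ (b : ℝ) ^ (-(δ * m)) := by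
    intro m
    by_cases hm : m ∈ S
    · obtain ⟨z, hz⟩ := hm
      exact ⟨z, fun _ => hz⟩
    · exact ⟨0, fun h => absurd h hm⟩
  choose z hz using hzex
  obtain ⟨y, hy0, hy⟩ := sub_inf (n := 2) (by norm_num) !![1, 0; A, -1]
    (by
      intro i j
      fin_cases i <;> fin_cases j
      · exact isAlgebraic_one
      · exact isAlgebraic_zero
      · exact hA
      · exact isAlgebraic_one.neg)
    (by rw [Matrix.det_fin_two_of]; norm_num) (ι := Unit) (fun _ => ![(b : ℤ), 1])
    (by
      intro _ l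
      fin_cases l
      · simp; omega
      · simp)
    (fun m _ => m) ((1 + δ) * Real.log b) (δ * Real.log b) (by positivity)
    (fun m => ![(b : ℝ) ^ m, (b : ℝ) ^ (-(δ * m))]) (fun m => ![(b : ℤ) ^ m, z m]) S hS
    (by
      intro m _ h0
      have := congrFun h0 0
      simp at this
      omega)
    (by
      intro m _ l
      fin_cases l
      · simp
      · simp)
    (by
      intro m hm l
      fin_cases l
      · simp
      · have := hz m hm
        simpa [Fin.sum_univ_two, sub_eq_add_neg] using this)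
    (by
      intro m _ l
      fin_cases l
      · simp; positivity
      · simp; positivity)
    (by
      intro m _ l
      fin_cases l
      · simp only [Fin.zero_eta, Matrix.cons_val_zero, Real.log_pow]
        rw [abs_of_nonneg (by positivity)]
        nlinarith [mul_nonneg hδ.le (mul_nonneg hlb.le (Nat.cast_nonneg m : (0:ℝ) ≤ m))]
      · simp only [Fin.mk_one, Matrix.cons_val_one, Matrix.cons_val_fin_one]
        rw [Real.log_rpow hb0, neg_mul, abs_neg, abs_of_nonneg (by positivity)]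
        nlinarith [(mul_nonneg hlb.le (Nat.cast_nonneg m : (0:ℝ) ≤ m))])
    (by
      intro m _
      simp only [Finset.univ_unique, Finset.prod_singleton, Fin.prod_univ_two,
        Matrix.cons_val_zero, Matrix.cons_val_one, Matrix.cons_val_fin_one]
      push_cast
      rw [one_pow, mul_one, abs_of_nonneg (by positivity), Real.log_pow]
      nlinarith [mul_nonneg hδ.le (mul_nonneg hlb.le (Nat.cast_nonneg m : (0:ℝ) ≤ m))])
    (by
      intro m _
      simp only [Finset.univ_unique, Finset.prod_singleton, Fin.prod_univ_two, Fin.sum_univ_two,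
        Matrix.cons_val_zero, Matrix.cons_val_one, Matrix.cons_val_fin_one]
      push_cast
      rw [one_pow, mul_one, abs_of_nonneg (by positivity), Real.log_pow, Real.log_rpow hb0]
      apply le_of_eq
      ring)
  simp only [Fin.sum_univ_two, Matrix.cons_val_zero, Matrix.cons_val_one,
    Matrix.cons_val_fin_one] at hy
  -- `y 0 * b ^ m + y 1 * z m = 0` for infinitely many `m`
  have key : (y 1 : ℝ) * A + y 0 = 0 := by
    apply zero_of_inf hb1 _ (|(y 1 : ℝ)|)
    refine hy.mono ?_
    rintro m ⟨hmS, hm⟩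
    have h1 : (y 0 : ℝ) * (b : ℝ) ^ m + y 1 * z m = 0 := by exact_mod_cast hm
    have h2 : ((y 1 : ℝ) * A + y 0) * (b : ℝ) ^ m = y 1 * (A * (b : ℝ) ^ m - z m) := by
      linear_combination h1
    show |(y 1 : ℝ) * A + y 0| * (b : ℝ) ^ m ≤ |(y 1 : ℝ)|
    rw [← abs_of_nonneg (pow_nonneg hb0.le m), ← abs_mul, h2, abs_mul]
    have h3 := hz m hmS
    have h4 : (b : ℝ) ^ (-(δ * m)) ≤ 1 := by
      apply Real.rpow_le_one_of_one_le_of_nonpos hb1.le
      have : 0 ≤ δ * m := by positivity
      linarith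
    calc |(y 1 : ℝ)| * |A * (b : ℝ) ^ m - z m| ≤ |(y 1 : ℝ)| * 1 :=
          mul_le_mul_of_nonneg_left (h3.trans h4) (abs_nonneg _)
      _ = _ := mul_one _
  by_cases h1 : y 1 = 0
  · rw [h1] at key
    apply hy0
    funext l
    fin_cases l
    · simpa using key
    · exact h1
  · apply hirr
    refine ⟨-(y 0 : ℚ) / y 1, ?_⟩
    have h1' : (y 1 : ℝ) ≠ 0 := by exact_mod_cast h1
    push_cast
    field_simp
    linarith

end Pool.Agent.V11270.Sub
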