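import Mathlib
import Pool.Agent.V11270.Sub.Ridout

/-!
# The subspace theorem for points with a coordinate divisible by a divisor of `b ^ m`
-/

set_option autoImplicit false

open Finset Filter Topology

namespace Pool.Agent.V11270.Sub

/-- the bases -/
def lamG (b : ℕ) {n : ℕ} (u : Fin n → ℕ) (j : Fin n) : Option (Fin (b + 1)) → Fin n → ℤ
  | none => fun l => (b : ℤ) ^ u l
  | some v => fun l => if l = j ∧ v.val.Prime then (v.val : ℤ) else 1

/-- the exponents -/
def kkG (b : ℕ) (g : ℕ → ℕ) (m : ℕ) : Option (Fin (b + 1)) → ℕ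
  | none => m
  | some v => (g m).factorization v.val

lemma prod_fact {b : ℕ} (hb : 2 ≤ b) {m g : ℕ} (hg : g ∣ b ^ m) :
    ∏ v : Fin (b + 1), (if v.val.Prime then (v.val : ℤ) else 1) ^ g.factorization v.val = g := by
  have hg0 : g ≠ 0 := by
    rintro rfl
    rw [zero_dvd_iff] at hg
    have := pow_pos (by omega : 0 < b) m
    omega
  have h1 : ∀ v : ℕ, (if v.Prime then (v : ℤ) else 1) ^ g.factorization v =
      ((v ^ g.factorization v : ℕ) : ℤ) := by
    intro v
    split_ifs with hv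
    · push_cast
      rfl
    · rw [Nat.factorization_eq_zero_of_not_prime _ hv]
      simp
  have h2 : ∏ v : Fin (b + 1), (if v.val.Prime then (v.val : ℤ) else 1) ^ g.factorization v.val =
      ∏ v ∈ Finset.range (b + 1), ((v ^ g.factorization v : ℕ) : ℤ) := by
    rw [Finset.prod_range]
    exact Finset.prod_congr rfl fun v _ => h1 v.val
  rw [h2, ← Nat.cast_prod]
  congr 1
  have h3 : g.primeFactors ⊆ Finset.range (b + 1) := by
    intro p hp
    rw [Finset.mem_range]
    have hpp := Nat.prime_of_mem_primeFactors hp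
    have h4 : p ∣ b ^ m := (Nat.dvd_of_mem_primeFactors hp).trans hg
    have := Nat.le_of_dvd (by omega) (hpp.dvd_of_dvd_pow h4)
    omega
  rw [← Finset.prod_subset h3]
  · exact Nat.prod_factorization_pow_eq_self hg0
  · intro p _ hp
    rw [← Nat.support_factorization, Finsupp.notMem_support_iff] at hp
    rw [hp, pow_zero]

lemma prodD {b : ℕ} (hb : 2 ≤ b) {n : ℕ} (u : Fin n → ℕ) (j : Fin n) {g : ℕ → ℕ} {m : ℕ}
    (hg : g m ∣ b ^ m) (l : Fin n) : ∏ v, lamG b u j v l ^ kkG b g m v =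
      (b : ℤ) ^ (u l * m) * (if l = j then (g m : ℤ) else 1) := by
  rw [Fintype.prod_option]
  congr 1
  · show ((b : ℤ) ^ u l) ^ m = _
    rw [pow_mul]
  · show ∏ v : Fin (b + 1), (if l = j ∧ v.val.Prime then (v.val : ℤ) else 1) ^
      (g m).factorization v.val = _
    split_ifs with h
    · simp only [h, true_and]
      exact prod_fact hb hg
    · simp [h]

/-- The subspace theorem, one coordinate being divisible by a divisor `g m` of `b ^ m`. -/
theorem sub_gcd {b : ℕ} (hb : 2 ≤ b) {n : ℕ} (hn : 1 ≤ n) (L : Matrix (Fin n) (Fin n) ℝ)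
    (hL : ∀ i j, IsAlgebraic ℚ (L i j)) (hdet : L.det ≠ 0) (u : Fin n → ℕ) (j : Fin n)
    (g : ℕ → ℕ) (ε : ℝ) (a : Fin n → ℝ) (C : ℝ) (hC : 0 < C)
    (ha : ∑ l, a l < ∑ l, (u l : ℝ) + ε) (x : ℕ → Fin n → ℤ) (S : Set ℕ) (hS : S.Infinite)
    (hx : ∀ m ∈ S, x m ≠ 0) (hg : ∀ m ∈ S, g m ∣ b ^ m)
    (hge : ∀ m ∈ S, (b : ℝ) ^ (ε * m) ≤ g m)
    (hdvd : ∀ m ∈ S, ∀ l, (b : ℤ) ^ (u l * m) * (if l = j then (g m : ℤ) else 1) ∣ x m l)
    (hsol : ∀ m ∈ S, ∀ l, |∑ i, L l i * (x m i : ℝ)| ≤ C * (b : ℝ) ^ (a l * m)) :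
    ∃ y : Fin n → ℤ, y ≠ 0 ∧ {m ∈ S | ∑ l, y l * x m l = 0}.Infinite := by
  classical
  have hb1 : (1 : ℝ) < b := by exact_mod_cast hb
  have hb0 : (0 : ℝ) < b := by linarith
  have hlb : 0 < Real.log b := Real.log_pos hb1
  set γ : ℝ := (∑ l, (u l : ℝ) + ε - ∑ l, a l) / 2 * Real.log b with hγ
  have hγ0 : 0 < γ := by
    apply mul_pos _ hlb
    linarith
  -- large indices
  obtain ⟨m0, hm0⟩ := exists_nat_ge ((n : ℝ) * |Real.log C| / γ)
  obtain ⟨m1, hm1⟩ := exists_nat_ge (|Real.log C|)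
  set S' : Set ℕ := {m ∈ S | max m0 m1 ≤ m} with hS'
  have hS'i : S'.Infinite := inf_large hS _
  have hgpos : ∀ m ∈ S', 0 < g m := by
    intro m hm
    rw [Nat.pos_iff_ne_zero]
    intro h0
    have h1 := hge m hm.1
    rw [h0, Nat.cast_zero] at h1
    have := Real.rpow_pos_of_pos hb0 (ε * m)
    linarith
  have hprod : ∀ m ∈ S', ∏ l, ∏ v, ((lamG b u j v l : ℤ) : ℝ) ^ kkG b g m v =
      (b : ℝ) ^ ((∑ l, u l) * m) * g m := by
    intro m hm
    have h1 : ∀ l, ∏ v, ((lamG b u j v l : ℤ) : ℝ) ^ kkG b g m v =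
        (b : ℝ) ^ (u l * m) * (if l = j then (g m : ℝ) else 1) := by
      intro l
      have := prodD hb u j (hg m hm.1) l
      have h2 : (((∏ v, lamG b u j v l ^ kkG b g m v : ℤ)) : ℝ) =
          (((b : ℤ) ^ (u l * m) * (if l = j then (g m : ℤ) else 1) : ℤ) : ℝ) := by rw [this]
      push_cast at h2
      rw [h2]
    simp only [h1]
    rw [Finset.prod_mul_distrib, Finset.prod_pow_eq_pow_sum, ← Finset.sum_mul,
      Finset.prod_ite_eq']
    simp
  have hlogD : ∀ m ∈ S', Real.log |∏ l, ∏ v, ((lamG b u j v l : ℤ) : ℝ) ^ kkG b g m v| =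
      (∑ l, (u l : ℝ)) * m * Real.log b + Real.log (g m) := by
    intro m hm
    rw [hprod m hm, Real.log_abs, Real.log_mul (by positivity)
      (by exact_mod_cast (hgpos m hm).ne'), Real.log_pow]
    push_cast
    ring
  obtain ⟨y, hy0, hy⟩ := sub_inf hn L hL hdet (lamG b u j)
    (by
      intro v l
      cases v with
      | none =>
        show (b : ℤ) ^ u l ≠ 0
        exact pow_ne_zero _ (by omega)
      | some v =>
        show (if l = j ∧ v.val.Prime then (v.val : ℤ) else 1) ≠ 0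
        split_ifs with h
        · exact_mod_cast h.2.ne_zero
        · exact one_ne_zero)
    (kkG b g) (1 + (∑ l, |a l|) * Real.log b + (∑ l, (u l : ℝ)) * Real.log b + Real.log b) γ hγ0
    (fun m l => C * (b : ℝ) ^ (a l * m)) x S' hS'i (fun m hm => hx m hm.1)
    (by
      intro m hm l
      rw [prodD hb u j (hg m hm.1) l]
      exact hdvd m hm.1 l)
    (fun m hm l => hsol m hm.1 l) (fun m _ l => by positivity)
    (by
      intro m hm l
      have hm1' : |Real.log C| ≤ m := hm1.trans (by exact_mod_cast (le_max_right _ _).trans hm.2)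
      rw [Real.log_mul hC.ne' (by positivity), Real.log_rpow hb0]
      have h1 : |a l| ≤ ∑ l, |a l| :=
        Finset.single_le_sum (f := fun l => |a l|) (fun _ _ => abs_nonneg _) (Finset.mem_univ l)
      have hmn : (0 : ℝ) ≤ m := Nat.cast_nonneg m
      have hu : (0 : ℝ) ≤ ∑ l, (u l : ℝ) := Finset.sum_nonneg fun _ _ => Nat.cast_nonneg _
      calc |Real.log C + a l * m * Real.log b| ≤ |Real.log C| + |a l * m * Real.log b| :=
            abs_add_le _ _
        _ = |Real.log C| + |a l| * m * Real.log b := by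
            rw [abs_mul, abs_mul, abs_of_nonneg hmn, abs_of_pos hlb]
        _ ≤ 1 * m + (∑ l, |a l|) * m * Real.log b := by gcongr; linarith
        _ ≤ (1 + (∑ l, |a l|) * Real.log b + (∑ l, (u l : ℝ)) * Real.log b + Real.log b) * m := by
            have h2 : 0 ≤ (∑ l, (u l : ℝ)) * Real.log b * m := by positivity
            have h3 : 0 ≤ Real.log b * m := by positivity
            nlinarith)
    (by
      intro m hm
      rw [hlogD m hm]
      have hmn : (0 : ℝ) ≤ m := Nat.cast_nonneg m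
      have h1 : Real.log (g m) ≤ m * Real.log b := by
        rw [← Real.log_pow]
        apply Real.log_le_log (by exact_mod_cast hgpos m hm)
        have h2 : g m ≤ b ^ m := Nat.le_of_dvd (pow_pos (by omega) m) (hg m hm.1)
        exact_mod_cast h2
      have h2 : 0 ≤ (∑ l, |a l|) * Real.log b * m := by
        have : 0 ≤ ∑ l, |a l| := Finset.sum_nonneg fun _ _ => abs_nonneg _
        positivity
      nlinarith)
    (by
      intro m hm
      rw [hlogD m hm]
      have hm0' : (n : ℝ) * |Real.log C| / γ ≤ m :=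
        hm0.trans (by exact_mod_cast (le_max_left _ _).trans hm.2)
      rw [div_le_iff₀ hγ0] at hm0'
      have hlogA : ∀ l, Real.log (C * (b : ℝ) ^ (a l * m)) = Real.log C + a l * (m * Real.log b) := by
        intro l
        rw [Real.log_mul hC.ne' (by positivity), Real.log_rpow hb0]
        ring
      simp only [hlogA]
      rw [Finset.sum_add_distrib, Finset.sum_const, Finset.card_univ, Fintype.card_fin,
        nsmul_eq_mul, ← Finset.sum_mul]
      have h3 : (n : ℝ) * Real.log C ≤ n * |Real.log C| :=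
        mul_le_mul_of_nonneg_left (le_abs_self _) (Nat.cast_nonneg _)
      have h4 : ε * m * Real.log b ≤ Real.log (g m) := by
        rw [← Real.log_rpow hb0]
        exact Real.log_le_log (by positivity) (hge m hm.1)
      have h5 : γ * m + γ * m = (∑ l, (u l : ℝ) + ε - ∑ l, a l) * (m * Real.log b) := by
        rw [hγ]
        ring
      nlinarith)
  refine ⟨y, hy0, hy.mono ?_⟩
  rintro m ⟨hm, h⟩
  exact ⟨hm.1, h⟩

end Pool.Agent.V11270.Sub
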